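import Pool.Agent.TilePer.Main

/-! Upper bound for the maximal period of complements of a finite integer tile:
`log M(d) ≤ exp (24 log d / log log d)`, that is `M(d) ≤ exp (d^(24 / log log d))`. -/

namespace Pool.Agent.Retired.MP_adb430_co.SubpolynomialExponent

/-- `A ⊕ B = ℤ`: every integer is `a + b` with `a ∈ A`, `b ∈ B` in exactly one way. -/
def Tiles (A : Finset ℤ) (B : Set ℤ) : Prop :=
  ∀ n : ℤ, ∃! p : ℤ × ℤ, p.1 ∈ A ∧ p.2 ∈ B ∧ p.1 + p.2 = n

/-- `m ≥ 1` is a period of `B`. -/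
def IsPeriod (B : Set ℤ) (m : ℕ) : Prop :=
  0 < m ∧ ∀ x : ℤ, x + m ∈ B ↔ x ∈ B

/-- `m` is the minimal period of `B`. -/
def IsMinPeriod (B : Set ℤ) (m : ℕ) : Prop :=
  IsLeast {k : ℕ | IsPeriod B k} m

/-- The finite set `A` is nonempty and `max A - min A = d`. -/
def HasDiam (A : Finset ℤ) (d : ℕ) : Prop :=
  (∃ a ∈ A, ∃ a' ∈ A, a' - a = d) ∧ ∀ a ∈ A, ∀ a' ∈ A, a' - a ≤ d

/-- The minimal periods of all complements of all finite sets of diameter `d`. -/
def minPeriods (d : ℕ) : Set ℕ :=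
  {m | ∃ (A : Finset ℤ) (B : Set ℤ), HasDiam A d ∧ Tiles A B ∧ IsMinPeriod B m}

/-- `M(d)`: the least upper bound of the minimal periods. -/
noncomputable def maxPeriod (d : ℕ) : ℕ := sSup (minPeriods d)

theorem card_le {A : Finset ℤ} {d : ℕ} (h : HasDiam A d) : A.card ≤ d + 1 := by
  obtain ⟨⟨a, ha, -⟩, hd⟩ := h
  have hne : A.Nonempty := ⟨a, ha⟩
  have hsub : A ⊆ Finset.Icc (A.min' hne) (A.min' hne + d) := by
    intro x hx
    rw [Finset.mem_Icc]
    exact ⟨A.min'_le x hx, by have := hd _ (A.min'_mem hne) _ hx; linarith⟩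
  have := Finset.card_le_card hsub
  rw [Int.card_Icc] at this
  omega

theorem tiles_iff {A : Finset ℤ} {B : Set ℤ} : Tiles A B ↔ Pool.Agent.TilePer.Tiles A B :=
  Iff.rfl

theorem result (d : ℕ) (hd : 16 ≤ d) :
    (∀ (A : Finset ℤ) (B : Set ℤ), HasDiam A d → Tiles A B → ∃ m, IsMinPeriod B m) ∧
    BddAbove (minPeriods d) ∧
    Real.log (maxPeriod d) ≤ Real.exp (24 * (Real.log d / Real.log (Real.log d))) := by
  have hex : ∀ (A : Finset ℤ) (B : Set ℤ), Tiles A B → ∃ m, IsMinPeriod B m := by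
    intro A B hT
    obtain ⟨m, hm⟩ := Pool.Agent.TilePer.Tiles.periodic (tiles_iff.1 hT)
    classical
    have hne : ∃ k, IsPeriod B k := ⟨m, hm⟩
    exact ⟨Nat.find hne, Nat.find_spec hne, fun k hk => Nat.find_min' hne hk⟩
  have hbound : ∀ m ∈ minPeriods d, 0 < m ∧
      Real.log m ≤ Real.exp (24 * (Real.log d / Real.log (Real.log d))) := by
    rintro m ⟨A, B, hA, hT, hm⟩
    have hT' := tiles_iff.1 hT
    have hm' : IsLeast {k : ℕ | Pool.Agent.TilePer.IsPeriod B k} m := hm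
    have hm0 : 0 < m := hm.1.1
    refine ⟨hm0, ?_⟩
    have hdd : ∀ a ∈ A, ∀ a' ∈ A, a - a' ≤ d := fun a ha a' ha' => hA.2 a' ha' a ha
    have hle := hT'.period_le hm' hdd
    have hn0 : A.card ≠ 0 := Finset.card_ne_zero.2 hT'.nonempty
    exact Pool.Agent.TilePer.log_bound hn0 hm0.ne' (card_le hA) hd hle
  set E := Real.exp (24 * (Real.log d / Real.log (Real.log d))) with hE
  have hbdd : BddAbove (minPeriods d) := by
    refine ⟨⌊Real.exp E⌋₊, fun m hm => ?_⟩
    obtain ⟨h0, h1⟩ := hbound m hm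
    apply Nat.le_floor
    have h0' : (0 : ℝ) < m := by exact_mod_cast h0
    exact (Real.log_le_iff_le_exp h0').1 h1
  refine ⟨fun A B _ hT => hex A B hT, hbdd, ?_⟩
  by_cases hne : (minPeriods d).Nonempty
  · exact (hbound _ (Nat.sSup_mem hne hbdd)).2
  · have h0 : maxPeriod d = 0 := by
      unfold maxPeriod
      rw [Set.not_nonempty_iff_eq_empty.1 hne]; simp
    rw [h0]; simp
    exact (Real.exp_pos _).le

end Pool.Agent.Retired.MP_adb430_co.SubpolynomialExponent
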